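import Pool.Agent.H56.JW.Targets

/-! Board jwq_modules, row CNT: few vertices are not free or not usable. -/

set_option autoImplicit false

namespace Pool.Agent.H81.JWQ

open Finset Pool.Agent.H56.JW Pool.Agent.H44.HC

/-- a `c`-connected graph has minimum degree at least `c` (as in H44/HC/FIN) -/
theorem deg_of_kconn {V : Type} [Fintype V] [DecidableEq V] {c : ℕ} {G : SimpleGraph V}
    (h : KConn c G) (v : V) : ∃ N : Finset V, (∀ w ∈ N, G.Adj v w) ∧ c ≤ N.card := by
  classical
  refine ⟨univ.filter (fun w => G.Adj v w), fun w hw => (mem_filter.1 hw).2, ?_⟩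
  by_contra hcon
  push Not at hcon
  set N := univ.filter (fun w => G.Adj v w) with hN
  have hconn := h.2 N hcon
  have hvN : v ∉ N := by simp [hN]
  have hex : ∃ w, w ∉ N ∧ w ≠ v := by
    by_contra hno
    push Not at hno
    have hsub : (univ : Finset V) ⊆ insert v N := by
      intro w _
      by_cases hw : w ∈ N
      · exact mem_insert_of_mem hw
      · rw [hno w hw]
        exact mem_insert_self _ _
    have h1 := card_le_card hsub
    have h2 := card_insert_le v N
    have h3 := h.1
    rw [card_univ] at h1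
    omega
  obtain ⟨w, hw, hwv⟩ := hex
  have hv' : v ∈ ((N : Set V)ᶜ) := by simpa using hvN
  have hw' : w ∈ ((N : Set V)ᶜ) := by simpa using hw
  obtain ⟨p⟩ := hconn.preconnected ⟨v, hv'⟩ ⟨w, hw'⟩
  cases p with
  | nil => exact hwv rfl
  | @cons _ u _ hadj _ =>
    have h1 : G.Adj v u.1 := hadj
    have h2 : u.1 ∉ N := fun h => u.2 (mem_coe.2 h)
    exact h2 (mem_filter.2 ⟨mem_univ _, h1⟩)

section
variable {V : Type} [Fintype V] [DecidableEq V]

open Classical in
/-- not free packed vertices -/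
theorem notfree_card (G : SimpleGraph V) (X : Finset V) (lab : V → V) (q m : ℕ)
    (hP : Pack q m G X lab) (U : Finset (V ⊕ (V × ℕ))) :
    ∃ k : ℕ, k * (q - 7) ≤ (U.filter fun e => e.isRight = true).card ∧
      (univ.filter fun v => v ∉ X ∧ ¬ FrP X lab q U v).card ≤
        (univ.filter fun v => v ∉ X ∧ Sum.inl v ∈ U).card + k * m := by
  set C : Finset V := ((univ.filter fun v => v ∉ X).image lab).filter
    fun c => q - 7 ≤ ((range q).filter fun s => Sum.inr (c, s) ∈ U).card with hC
  refine ⟨C.card, ?_, ?_⟩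
  · have h1 : C.card * (q - 7) ≤ ∑ c ∈ C, ((range q).filter fun s => Sum.inr (c, s) ∈ U).card := by
      rw [← smul_eq_mul]
      exact Finset.card_nsmul_le_sum _ _ _ fun c hc => (mem_filter.1 hc).2
    refine h1.trans ?_
    have h2 : (C.biUnion fun c => ((range q).filter fun s => Sum.inr (c, s) ∈ U).image
        fun s => (Sum.inr (c, s) : V ⊕ (V × ℕ))) ⊆ U.filter fun e => e.isRight = true := by
      intro e he
      obtain ⟨c, _, h3⟩ := mem_biUnion.1 he
      obtain ⟨s, h4, rfl⟩ := mem_image.1 h3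
      exact mem_filter.2 ⟨(mem_filter.1 h4).2, rfl⟩
    refine le_trans (le_of_eq ?_) (card_le_card h2)
    rw [card_biUnion]
    · refine sum_congr rfl fun c _ => ?_
      rw [card_image_of_injective]
      intro s s' hs
      have := Sum.inr.inj hs
      exact (Prod.mk.inj this).2
    · intro c _ c' _ hcc
      refine disjoint_left.2 ?_
      intro e he he'
      obtain ⟨s, _, rfl⟩ := mem_image.1 he
      obtain ⟨s', _, h5⟩ := mem_image.1 he'
      exact hcc (Prod.mk.inj (Sum.inr.inj h5)).1.symm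
  · have h1 : (univ.filter fun v => v ∉ X ∧ ¬ FrP X lab q U v) ⊆
        (univ.filter fun v => v ∉ X ∧ Sum.inl v ∈ U) ∪
        C.biUnion fun c => univ.filter fun w => w ∉ X ∧ lab w = c := by
      intro v hv
      obtain ⟨-, hvX, hvF⟩ := mem_filter.1 hv
      by_cases hvU : Sum.inl v ∈ U
      · exact mem_union_left _ (mem_filter.2 ⟨mem_univ _, hvX, hvU⟩)
      · refine mem_union_right _ (mem_biUnion.2 ⟨lab v, ?_, mem_filter.2 ⟨mem_univ _, hvX, rfl⟩⟩)
        refine mem_filter.2 ⟨mem_image_of_mem _ (mem_filter.2 ⟨mem_univ _, hvX⟩), ?_⟩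
        have h2 : ¬ 8 ≤ ((range q).filter fun s => Sum.inr (lab v, s) ∉ U).card :=
          fun h => hvF ⟨hvX, hvU, h⟩
        have h3 := card_filter_add_card_filter_not (s := range q)
          (fun s => (Sum.inr (lab v, s) : V ⊕ (V × ℕ)) ∈ U)
        rw [card_range] at h3
        omega
    refine (card_le_card h1).trans ((card_union_le _ _).trans (Nat.add_le_add_left ?_ _))
    refine card_biUnion_le_card_mul _ _ _ fun c hc => ?_
    obtain ⟨v, hv, rfl⟩ := mem_image.1 (mem_filter.1 hc).1
    exact hP.size v (mem_filter.1 hv).2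

open Classical in
/-- leftover vertices with few free neighbours -/
theorem few_card (G : SimpleGraph V) (X : Finset V) (lab : V → V) (q m c d : ℕ)
    (hP : Pack q m G X lab) (hk : KConn c G) (U : Finset (V ⊕ (V × ℕ))) (hd : d + m + 6 ≤ c) :
    (univ.filter fun x => x ∈ X ∧ Sum.inl x ∉ U ∧
      (univ.filter fun v => FrP X lab q U v ∧ G.Adj x v).card < 8).card * d ≤
      (univ.filter fun v => v ∉ X ∧ ¬ FrP X lab q U v).card * m := by
  refine Finset.card_mul_le_card_mul (fun x v => G.Adj x v) ?_ ?_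
  · intro x hx
    obtain ⟨-, -, -, hx3⟩ := mem_filter.1 hx
    obtain ⟨N, hN1, hN2⟩ := deg_of_kconn hk x
    have h1 : N ⊆ ((univ.filter fun v => FrP X lab q U v ∧ G.Adj x v) ∪
        (univ.filter fun y => y ∈ X ∧ G.Adj x y)) ∪
        (univ.filter fun v => v ∉ X ∧ ¬ FrP X lab q U v).bipartiteAbove (fun x v => G.Adj x v) x := by
      intro v hv
      by_cases h2 : v ∈ X
      · exact mem_union_left _ (mem_union_right _ (mem_filter.2 ⟨mem_univ _, h2, hN1 v hv⟩))
      · by_cases h3 : FrP X lab q U v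
        · exact mem_union_left _ (mem_union_left _ (mem_filter.2 ⟨mem_univ _, h3, hN1 v hv⟩))
        · exact mem_union_right _ (mem_filter.2 ⟨mem_filter.2 ⟨mem_univ _, h2, h3⟩, hN1 v hv⟩)
    have h2 := card_le_card h1
    have h3 := card_union_le ((univ.filter fun v => FrP X lab q U v ∧ G.Adj x v) ∪
        (univ.filter fun y => y ∈ X ∧ G.Adj x y))
        ((univ.filter fun v => v ∉ X ∧ ¬ FrP X lab q U v).bipartiteAbove (fun x v => G.Adj x v) x)
    have h4 := card_union_le (univ.filter fun v => FrP X lab q U v ∧ G.Adj x v)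
        (univ.filter fun y => y ∈ X ∧ G.Adj x y)
    have h5 := hP.left x
    omega
  · intro v _
    have h1 : (univ.filter fun x => x ∈ X ∧ Sum.inl x ∉ U ∧
        (univ.filter fun v => FrP X lab q U v ∧ G.Adj x v).card < 8).bipartiteBelow
        (fun x v => G.Adj x v) v ⊆ univ.filter fun x => x ∈ X ∧ G.Adj v x := by
      intro x hx
      obtain ⟨h2, h3⟩ := mem_filter.1 hx
      exact mem_filter.2 ⟨mem_univ _, (mem_filter.1 h2).2.1, h3.symm⟩
    exact (card_le_card h1).trans (hP.left v).le

omit [DecidableEq V] in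
theorem nb_card (L : SimpleGraph V) (s : V) (h : dg L s ≤ 2) [DecidablePred (L.Adj s)] :
    (univ.filter fun x => L.Adj s x).card ≤ 2 := by
  have h1 : ((univ.filter fun x => L.Adj s x : Finset V) : Set V) = L.neighborSet s := by
    ext x
    simp
  unfold dg at h
  rw [← h1, Set.ncard_coe_finset] at h
  exact h

open Classical in
/-- not usable leftover vertices -/
theorem notus_card (G L : SimpleGraph V) (X : Finset V) (lab : V → V) (q : ℕ)
    (hd : ∀ v, dg L v ≤ 2) (hL : ∀ u v, L.Adj u v → u ∈ X ∧ v ∈ X) (U : Finset (V ⊕ (V × ℕ))) :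
    (univ.filter fun x => x ∈ X ∧ ¬ UsX G L X lab q U x).card ≤
      3 * ((univ.filter fun x => x ∈ X ∧ Sum.inl x ∈ U).card +
        (univ.filter fun x => x ∈ X ∧ Sum.inl x ∉ U ∧
          (univ.filter fun v => FrP X lab q U v ∧ G.Adj x v).card < 8).card) := by
  set Bd : Finset V := univ.filter fun x => x ∈ X ∧ ¬ GdX G X lab q U x with hBd
  have hB : Bd.card ≤ (univ.filter fun x => x ∈ X ∧ Sum.inl x ∈ U).card +
        (univ.filter fun x => x ∈ X ∧ Sum.inl x ∉ U ∧
          (univ.filter fun v => FrP X lab q U v ∧ G.Adj x v).card < 8).card := by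
    refine le_trans (card_le_card ?_) (card_union_le _ _)
    intro x hx
    obtain ⟨-, hx1, hx2⟩ := mem_filter.1 hx
    by_cases h1 : Sum.inl x ∈ U
    · exact mem_union_left _ (mem_filter.2 ⟨mem_univ _, hx1, h1⟩)
    · refine mem_union_right _ (mem_filter.2 ⟨mem_univ _, hx1, h1, ?_⟩)
      by_contra h2
      exact hx2 ⟨hx1, h1, not_lt.1 h2⟩
  have h1 : (univ.filter fun x => x ∈ X ∧ ¬ UsX G L X lab q U x) ⊆
      Bd ∪ Bd.biUnion fun s => univ.filter fun x => L.Adj s x := by
    intro x hx
    obtain ⟨-, hx1, hx2⟩ := mem_filter.1 hx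
    by_cases h2 : GdX G X lab q U x
    · have h3 : ∃ s, L.Adj x s ∧ ¬ GdX G X lab q U s := by
        by_contra h4
        push Not at h4
        exact hx2 ⟨h2, h4⟩
      obtain ⟨s, h4, h5⟩ := h3
      exact mem_union_right _ (mem_biUnion.2 ⟨s, mem_filter.2 ⟨mem_univ _, (hL x s h4).2, h5⟩,
        mem_filter.2 ⟨mem_univ _, h4.symm⟩⟩)
    · exact mem_union_left _ (mem_filter.2 ⟨mem_univ _, hx1, h2⟩)
  have h2 : (Bd.biUnion fun s => univ.filter fun x => L.Adj s x).card ≤ Bd.card * 2 :=
    card_biUnion_le_card_mul _ _ _ fun s _ => nb_card L s (hd s)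
  have h3 := (card_le_card h1).trans (card_union_le _ _)
  omega

open Classical in
/-- the elements of `U` -/
theorem split_card (X : Finset V) (U : Finset (V ⊕ (V × ℕ))) :
    (univ.filter fun v => v ∉ X ∧ Sum.inl v ∈ U).card +
      (univ.filter fun v => v ∈ X ∧ Sum.inl v ∈ U).card +
      (U.filter fun e => e.isRight = true).card ≤ U.card := by
  have h1 := card_filter_add_card_filter_not (s := U) (fun e => e.isRight = true)
  have h2 : ((univ.filter fun v => v ∉ X ∧ Sum.inl v ∈ U) ∪
      (univ.filter fun v => v ∈ X ∧ Sum.inl v ∈ U)).image (Sum.inl : V → V ⊕ (V × ℕ)) ⊆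
      U.filter fun e => ¬ e.isRight = true := by
    intro e he
    obtain ⟨v, hv, rfl⟩ := mem_image.1 he
    refine mem_filter.2 ⟨?_, by simp⟩
    rcases mem_union.1 hv with h | h
    · exact (mem_filter.1 h).2.2
    · exact (mem_filter.1 h).2.2
  have h3 := card_le_card h2
  rw [card_image_of_injective _ Sum.inl_injective, card_union_of_disjoint] at h3
  · omega
  · rw [disjoint_left]
    intro v hv hv'
    exact (mem_filter.1 hv).2.1 (mem_filter.1 hv').2.1

end

open Classical in
/-- CNT -/
theorem pf_CNT : T_CNT := by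
  intro V _ _ G L X lab s m c hs hm hc hk hP hd hL U
  obtain ⟨k, hk1, hk2⟩ := notfree_card G X lab (400 * s) m hP U
  have h3 := notus_card G L X lab (400 * s) hd hL U
  have h4 := split_card X U
  have hss : 1 ≤ s * s := Nat.mul_pos hs hs
  have h5 := few_card G X lab (400 * s) m c (1193 * (s * s)) hP hk U (by nlinarith)
  set a := (univ.filter fun v => v ∉ X ∧ ¬ FrP X lab (400 * s) U v).card with ha
  set b := (univ.filter fun x => x ∈ X ∧ ¬ UsX G L X lab (400 * s) U x).card with hb
  set x0 := (univ.filter fun x => x ∈ X ∧ Sum.inl x ∉ U ∧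
      (univ.filter fun v => FrP X lab (400 * s) U v ∧ G.Adj x v).card < 8).card with hx0
  set u1 := (univ.filter fun v => v ∉ X ∧ Sum.inl v ∈ U).card with hu1
  set uX := (univ.filter fun v => v ∈ X ∧ Sum.inl v ∈ U).card with huX
  set u2 := (U.filter fun e => e.isRight = true).card with hu2
  -- the class count
  have h6 : k * (393 * s) ≤ u2 := le_trans (Nat.mul_le_mul_left k (by omega)) hk1
  have h7 : k * m ≤ k * (801 * (s * s)) := Nat.mul_le_mul_left k hm
  have h8 : s * (k * (393 * s)) ≤ s * u2 := Nat.mul_le_mul_left s h6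
  have h9 : 393 * (k * m) ≤ 801 * (s * u2) := by nlinarith
  have h10 : x0 * (1193 * (s * s)) ≤ a * (801 * (s * s)) :=
    h5.trans (Nat.mul_le_mul_left a hm)
  have h11 : 1193 * x0 ≤ 801 * a := by
    have h12 : (1193 * x0) * (s * s) ≤ (801 * a) * (s * s) := by nlinarith
    exact Nat.le_of_mul_le_mul_right h12 hss
  have h13 : u1 ≤ s * u1 := Nat.le_mul_of_pos_left u1 hs
  have h14 : uX ≤ s * uX := Nat.le_mul_of_pos_left uX hs
  have h15 : s * (u1 + uX + u2) ≤ s * U.card := Nat.mul_le_mul_left s h4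
  have h16 : s * (u1 + uX + u2) = s * u1 + s * uX + s * u2 := by ring
  have h17 : 7 * s * U.card = 7 * (s * U.card) := by ring
  rw [h17]
  omega

end Pool.Agent.H81.JWQ
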