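import Pool.Agent.H56.JW.Targets

/-! Board jwq_modules, row CNI: few classes have no free vertex. -/

set_option autoImplicit false

namespace Pool.Agent.H81.JWQ

open Finset Pool.Agent.H56.JW Pool.Agent.H44.HC

open Classical in
/-- CNI -/
theorem pf_CNI : T_CNI := by
  intro V _ _ G X lab q m hP U N hN1 hN2
  set g : V ⊕ (V × ℕ) → V := Sum.elim lab Prod.fst with hg
  have hpart : ∑ c ∈ N, (U.filter fun e => g e = c).card ≤ U.card := by
    rw [← card_biUnion]
    · exact card_le_card fun e he => by
        obtain ⟨c, _, h⟩ := mem_biUnion.1 he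
        exact (mem_filter.1 h).1
    · intro c _ c' _ hcc
      refine disjoint_left.2 fun e he he' => ?_
      exact hcc ((mem_filter.1 he).2.symm.trans (mem_filter.1 he').2)
  refine le_trans ?_ hpart
  rw [← smul_eq_mul]
  refine Finset.card_nsmul_le_sum _ _ _ fun c hc => ?_
  obtain ⟨v, hv, rfl⟩ := hN1 c hc
  by_cases h8 : 8 ≤ ((range q).filter fun s => Sum.inr (lab v, s) ∉ U).card
  · obtain ⟨a, -, hK⟩ := hP.blk v hv
    have h1 : (cls X lab v).image (Sum.inl : V → V ⊕ (V × ℕ)) ⊆
        U.filter fun e => g e = lab v := by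
      intro e he
      obtain ⟨w, hw, rfl⟩ := mem_image.1 he
      obtain ⟨-, hwX, hwl⟩ := mem_filter.1 hw
      refine mem_filter.2 ⟨?_, hwl⟩
      by_contra hwU
      refine hN2 w hwX (hwl ▸ hc) ⟨hwX, hwU, ?_⟩
      rw [hwl]
      exact h8
    have h2 := card_le_card h1
    rw [card_image_of_injective _ Sum.inl_injective] at h2
    have h3 := hK.1
    omega
  · have h1 : ((range q).filter fun s => Sum.inr (lab v, s) ∈ U).image
        (fun s => (Sum.inr (lab v, s) : V ⊕ (V × ℕ))) ⊆ U.filter fun e => g e = lab v := by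
      intro e he
      obtain ⟨s, hs, rfl⟩ := mem_image.1 he
      exact mem_filter.2 ⟨(mem_filter.1 hs).2, rfl⟩
    have h2 := card_le_card h1
    rw [card_image_of_injective _ (fun s s' hs => (Prod.mk.inj (Sum.inr.inj hs)).2)] at h2
    have h3 := card_filter_add_card_filter_not (s := range q)
      (fun s => (Sum.inr (lab v, s) : V ⊕ (V × ℕ)) ∈ U)
    rw [card_range] at h3
    omega

end Pool.Agent.H81.JWQ
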